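import Mathlib
import Pool.Agent.V1180.UnC

namespace Pool.Agent.Results.MP_03af15_an.LargestModulus

open Polynomial V1180.Un

/-- The basis polynomial e_k(x) = x (x-1) ... (x-k+1) / (a)_k. -/
noncomputable def e (a : ℝ) (k : ℕ) : ℝ[X] :=
  C (∏ j ∈ Finset.range k, (a + j))⁻¹ * ∏ j ∈ Finset.range k, (X - C (j : ℝ))

/-- For the linear map L (the problem's L_a), the class U_n: real polynomials P of degree
exactly n such that every complex zero of L P is real and lies in [-1, 0]. -/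
def U (L : ℝ[X] →ₗ[ℝ] ℝ[X]) (n : ℕ) : Set ℝ[X] :=
  {P | P.natDegree = n ∧ ∀ z : ℂ, aeval z (L P) = 0 → z.im = 0 ∧ -1 ≤ z.re ∧ z.re ≤ 0}

lemma prod_pos' {a : ℝ} (ha : 0 < a) (k : ℕ) : 0 < ∏ j ∈ Finset.range k, (a + (j : ℝ)) :=
  Finset.prod_pos fun j _ => by positivity

lemma e_deg {a : ℝ} (ha : 0 < a) (k : ℕ) : (e a k).degree = k := by
  have hm : (∏ j ∈ Finset.range k, (X - C (j : ℝ))).Monic := monic_prod_of_monic _ _ fun j _ => monic_X_sub_C _
  have hd : (∏ j ∈ Finset.range k, (X - C (j : ℝ))).natDegree = k := by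
    rw [natDegree_prod_of_monic _ _ fun j _ => monic_X_sub_C _]
    have : ∀ i ∈ Finset.range k, (X - C (i : ℝ)).natDegree = 1 := fun i _ => natDegree_X_sub_C _
    rw [Finset.sum_congr rfl this]
    simp
  rw [e, degree_C_mul (inv_ne_zero (prod_pos' ha k).ne'), degree_eq_natDegree hm.ne_zero, hd]

/-- The polynomial sequence. -/
noncomputable def Sq (a : ℝ) (ha : 0 < a) : Polynomial.Sequence ℝ where
  elems' := e a
  degree_eq' := e_deg ha

lemma Sq_unit (a : ℝ) (ha : 0 < a) (i : ℕ) : IsUnit ((Sq a ha) i).leadingCoeff :=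
  (leadingCoeff_ne_zero.mpr ((Sq a ha).ne_zero i)).isUnit

/-- The basis. -/
noncomputable def bs (a : ℝ) (ha : 0 < a) : Module.Basis ℕ ℝ ℝ[X] := (Sq a ha).basis (Sq_unit a ha)

lemma bs_apply (a : ℝ) (ha : 0 < a) (i : ℕ) : bs a ha i = e a i :=
  Polynomial.Sequence.basis_eq_self _ _ i

/-- L_a -/
noncomputable def La (a : ℝ) (ha : 0 < a) : ℝ[X] →ₗ[ℝ] ℝ[X] := (bs a ha).constr ℝ fun k => X ^ k

lemma La_e (a : ℝ) (ha : 0 < a) (k : ℕ) : La a ha (e a k) = X ^ k := by
  rw [← bs_apply a ha, La, Module.Basis.constr_basis]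

/-- inverse of L_a -/
noncomputable def Ma (a : ℝ) : ℝ[X] →ₗ[ℝ] ℝ[X] := (basisMonomials ℝ).constr ℝ (e a)

lemma Ma_pow (a : ℝ) (k : ℕ) : Ma a (X ^ k) = e a k := by
  rw [← monomial_one_right_eq_X_pow, Ma]
  have := (Polynomial.basisMonomials ℝ).constr_basis ℝ (e a) k
  rwa [coe_basisMonomials] at this

lemma Ma_La (a : ℝ) (ha : 0 < a) (P : ℝ[X]) : Ma a (La a ha P) = P := by
  have : (Ma a) ∘ₗ (La a ha) = LinearMap.id := by
    apply (bs a ha).ext
    intro i
    rw [bs_apply, LinearMap.comp_apply, La_e, Ma_pow, LinearMap.id_apply]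
  exact LinearMap.congr_fun this P

lemma La_Ma (a : ℝ) (ha : 0 < a) (P : ℝ[X]) : La a ha (Ma a P) = P := by
  have : (La a ha) ∘ₗ (Ma a) = LinearMap.id := by
    apply (basisMonomials ℝ).ext
    intro i
    rw [coe_basisMonomials]
    change La a ha (Ma a (monomial i 1)) = monomial i 1
    rw [monomial_one_right_eq_X_pow, Ma_pow, La_e]
  exact LinearMap.congr_fun this P

lemma Ma_natDegree {a : ℝ} (ha : 0 < a) (Q : ℝ[X]) : (Ma a Q).natDegree = Q.natDegree := by
  by_cases hQ : Q = 0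
  · rw [hQ, map_zero]
  have hsum : Ma a Q = ∑ k ∈ Finset.range (Q.natDegree + 1), Q.coeff k • e a k := by
    conv_lhs => rw [Q.as_sum_range_C_mul_X_pow]
    rw [map_sum]
    refine Finset.sum_congr rfl fun k _ => ?_
    rw [← smul_eq_C_mul, map_smul, Ma_pow]
  have hnd : ∀ k, (e a k).natDegree = k := fun k => natDegree_eq_of_degree_eq_some (e_deg ha k)
  rw [hsum]
  apply natDegree_eq_of_le_of_coeff_ne_zero
  · apply natDegree_sum_le_of_forall_le
    intro k hk
    refine (natDegree_smul_le _ _).trans ?_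
    rw [hnd]; have := Finset.mem_range.mp hk; omega
  · rw [finsetSum_coeff, Finset.sum_eq_single Q.natDegree]
    · rw [coeff_smul, smul_eq_mul]
      apply mul_ne_zero
      · exact leadingCoeff_ne_zero.mpr hQ
      · have h0 : e a Q.natDegree ≠ 0 := by
          intro h; have := e_deg ha Q.natDegree; rw [h] at this; simp at this
        have := leadingCoeff_ne_zero.mpr h0
        rwa [leadingCoeff, hnd] at this
    · intro k hk hne
      have hk' := Finset.mem_range.mp hk
      rw [coeff_smul, coeff_eq_zero_of_natDegree_lt (p := e a k) (by rw [hnd]; omega), smul_zero]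
    · intro h; exact absurd (Finset.mem_range.mpr (by omega)) h

lemma aeval_e {a : ℝ} (x : ℂ) (k : ℕ) : aeval x (e a k) = Ev a x k := by
  rw [e, map_mul, aeval_C, map_prod, Ev, Finset.prod_div_distrib, div_eq_inv_mul]
  congr 1
  · rw [Complex.coe_algebraMap]; push_cast; rfl
  · refine Finset.prod_congr rfl fun j _ => ?_
    simp

lemma link {a : ℝ} (ha : 0 < a) (x : ℂ) (P : ℝ[X]) :
    aeval x P = Lam a x ((La a ha P).map (algebraMap ℝ ℂ)) := by
  let f2 : ℝ[X] →ₗ[ℝ] ℂ :=
    { toFun := fun P => Lam a x ((La a ha P).map (algebraMap ℝ ℂ))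
      map_add' := fun p q => by rw [map_add, Polynomial.map_add, map_add]
      map_smul' := fun c p => by
        rw [map_smul, Polynomial.map_smul, map_smul]; simp }
  have : (aeval x : ℝ[X] →ₐ[ℝ] ℂ).toLinearMap = f2 := by
    apply (bs a ha).ext
    intro i
    change aeval x (bs a ha i) = Lam a x ((La a ha (bs a ha i)).map (algebraMap ℝ ℂ))
    rw [bs_apply, La_e, Polynomial.map_pow, map_X, Lam_pow, aeval_e]
  exact LinearMap.congr_fun this P

/-- Every zero of a member of U_n lies in the closed disc with diameter [-(a+n-1), n-1]. -/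
lemma disc {a : ℝ} (ha : 0 < a) (m : ℕ) (P : ℝ[X]) (hP : P ∈ U (La a ha) (m + 1)) (x : ℂ)
    (hx : aeval x P = 0) : ‖x + a / 2‖ ≤ m + a / 2 := by
  obtain ⟨hdeg, hroots⟩ := hP
  obtain ⟨Q, hQ⟩ : ∃ Q, Q = La a ha P := ⟨_, rfl⟩
  have hQdeg : Q.natDegree = m + 1 := by
    rw [← Ma_natDegree ha Q, hQ, Ma_La, hdeg]
  have hQ0 : Q ≠ 0 := by intro h; rw [h] at hQdeg; simp at hQdeg
  obtain ⟨R, hR⟩ : ∃ R, R = Q.map (algebraMap ℝ ℂ) := ⟨_, rfl⟩
  have hR0 : R ≠ 0 := by rw [hR]; exact (Polynomial.map_ne_zero_iff (algebraMap ℝ ℂ).injective).mpr hQ0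
  have hsp : R.Splits := IsAlgClosed.splits R
  have hRdeg : R.natDegree = m + 1 := by rw [hR, natDegree_map]; exact hQdeg
  have hcard : R.roots.card = m + 1 := by rw [← hsp.natDegree_eq_card_roots, hRdeg]
  have hz : ∀ z ∈ R.roots, z.im = 0 ∧ -1 ≤ z.re ∧ z.re ≤ 0 := by
    intro z hz
    apply hroots z
    rw [← hQ]
    have : eval z R = 0 := (mem_roots hR0).mp hz
    rw [hR, eval_map_algebraMap] at this
    exact this
  obtain ⟨T, hT⟩ : ∃ T : Multiset ℝ, T = R.roots.map fun z => -z.re := ⟨_, rfl⟩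
  have hTcard : T.card = m + 1 := by rw [hT, Multiset.card_map, hcard]
  have hT01 : ∀ t ∈ T, 0 ≤ t ∧ t ≤ 1 := by
    intro t ht
    rw [hT, Multiset.mem_map] at ht
    obtain ⟨z, hz', rfl⟩ := ht
    have := hz z hz'
    constructor <;> linarith [this.2.1, this.2.2]
  have hprod : R = C R.leadingCoeff * (T.map fun t : ℝ => X + C (t : ℂ)).prod := by
    conv_lhs => rw [hsp.eq_prod_roots]
    congr 2
    rw [hT, Multiset.map_map]
    apply Multiset.map_congr rfl
    intro z hz'
    have := (hz z hz').1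
    have e1 : z = (z.re : ℂ) := Complex.ext (by simp) (by simpa using this)
    rw [Function.comp_apply]
    conv_lhs => rw [e1]
    push_cast
    rw [C_neg]; ring
  have hzero : ∀ y : ℂ, aeval y P = 0 → Lam a y (T.map fun t : ℝ => X + C (t : ℂ)).prod = 0 := by
    intro y hy
    rw [link ha, ← hQ, ← hR, hprod, ← smul_eq_C_mul, map_smul, smul_eq_mul] at hy
    exact (mul_eq_zero.mp hy).resolve_left (leadingCoeff_ne_zero.mpr hR0)
  rcases lt_trichotomy x.im 0 with him | him | him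
  · have hconj : aeval ((starRingEnd ℂ) x) P = 0 := by
      rw [aeval_conj, hx, map_zero]
    by_contra hcon
    push Not at hcon
    refine nonzero_im ha m ((starRingEnd ℂ) x) (by simpa using him) ?_ T hTcard (hzero _ hconj)
    have : (starRingEnd ℂ) x + a / 2 = (starRingEnd ℂ) (x + a / 2) := by
      rw [map_add, show ((a : ℂ) / 2) = ((a / 2 : ℝ) : ℂ) from by push_cast; rfl,
        Complex.conj_ofReal]
    rw [this, Complex.norm_conj]
    exact hcon
  · have e1 : x = (x.re : ℂ) := Complex.ext (by simp) (by simpa using him)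
    obtain ⟨y, hy⟩ : ∃ y, y = x.re := ⟨_, rfl⟩
    rw [← hy] at e1
    by_contra hcon
    push Not at hcon
    refine nonzero_real ha m y ?_ T hTcard hT01 (hzero _ (by rw [← e1]; exact hx))
    rw [e1, show ((y : ℂ) + a / 2) = ((y + a / 2 : ℝ) : ℂ) from by push_cast; rfl,
      Complex.norm_real, Real.norm_eq_abs] at hcon
    rcases lt_abs.mp hcon with h | h
    · left; linarith
    · right; linarith
  · by_contra hcon
    push Not at hcon
    exact nonzero_im ha m x him hcon T hTcard (hzero _ hx)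

theorem result (a : ℝ) (ha : 0 < a) :
    ∃ L : ℝ[X] →ₗ[ℝ] ℝ[X], (∀ k, L (e a k) = X ^ k) ∧
      (∀ L' : ℝ[X] →ₗ[ℝ] ℝ[X], (∀ k, L' (e a k) = X ^ k) → L' = L) ∧
      ∀ n : ℕ, 1 ≤ n →
        IsGreatest {r : ℝ | ∃ P ∈ U L n, ∃ z : ℂ, aeval z P = 0 ∧ r = ‖z‖} (a + n - 1) ∧
        ∀ P ∈ U L n, ∀ z : ℂ, aeval z P = 0 → ‖z + a / 2‖ ≤ n - 1 + a / 2 := by
  refine ⟨La a ha, La_e a ha, ?_, ?_⟩
  · intro L' hL'
    apply (bs a ha).ext
    intro i
    rw [bs_apply, hL', La_e]
  · intro n hn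
    obtain ⟨m, rfl⟩ : ∃ m, n = m + 1 := ⟨n - 1, by omega⟩
    have hdisc : ∀ P ∈ U (La a ha) (m + 1), ∀ z : ℂ, aeval z P = 0 →
        ‖z + a / 2‖ ≤ ((m + 1 : ℕ) : ℝ) - 1 + a / 2 := by
      intro P hP z hz
      have := disc ha m P hP z hz
      push_cast; linarith
    refine ⟨⟨?_, ?_⟩, hdisc⟩
    · obtain ⟨z, hz⟩ : ∃ z : ℂ, z = ((-(a + m) : ℝ) : ℂ) := ⟨_, rfl⟩
      refine ⟨Ma a ((1 + X) ^ (m + 1)), ⟨?_, ?_⟩, z, ?_, ?_⟩
      · rw [Ma_natDegree ha, natDegree_pow, show (1 + X : ℝ[X]) = X + C 1 from by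
          rw [C_1]; ring, natDegree_X_add_C, mul_one]
      · intro w hw
        rw [La_Ma, map_pow] at hw
        have := pow_eq_zero_iff (Nat.succ_ne_zero m) |>.mp hw
        rw [map_add, map_one, aeval_X] at this
        have hw1 : w = -1 := by linear_combination this
        rw [hw1]; simp
      · rw [link ha, La_Ma, Polynomial.map_pow, Polynomial.map_add, Polynomial.map_one, map_X]
        have h := Lam_XY ha z (m + 1) 0
        rw [pow_zero, one_mul, Finset.range_zero, Finset.prod_empty, one_mul] at h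
        have h0 : ∏ l ∈ Finset.range (m + 1), (z + a + l) = 0 := by
          rw [Finset.prod_eq_zero_iff]
          refine ⟨m, by simp, ?_⟩
          rw [hz]; push_cast; ring
        rw [h0] at h
        refine (mul_eq_zero.mp h).resolve_right ?_
        apply Finset.prod_ne_zero_iff.mpr
        intro l _; exact apos ha l
      · rw [hz, Complex.norm_real, Real.norm_eq_abs, abs_neg, abs_of_pos (by positivity)]
        push_cast; ring
    · rintro r ⟨P, hP, z, hz, rfl⟩
      have h1 := hdisc P hP z hz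
      have h2 : ‖z‖ ≤ ‖z + a / 2‖ + ‖((a / 2 : ℝ) : ℂ)‖ := by
        have : z = (z + a / 2) - ((a / 2 : ℝ) : ℂ) := by push_cast; ring
        conv_lhs => rw [this]
        exact norm_sub_le _ _
      rw [Complex.norm_real, Real.norm_eq_abs, abs_of_pos (by positivity)] at h2
      linarith

end Pool.Agent.Results.MP_03af15_an.LargestModulus
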